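import Pool.Agent.H21.P5.EndA5

/-!
# P5, the last assembly: the theorem
-/

set_option autoImplicit false

namespace Pool.P5

open Finset Real MvPolynomial Matrix
open Pool.Agent.H49.Ent Pool.Agent.H32.Dense Pool.STK Pool.STAT Pool.MIC.Frm Pool.MIC7 Pool.FRM
open Pool.GSD
open Pool.BFL (Pb)
open Pool.POT (VCh)
open Pool.P4 (t0 rt pp bb ze zt z0 be cl1 dg dgp Ry cb LLC tq GoodS FrP GnL NewLabT NFc Fx Dic LT
  Lt NBT MF rcd cMx cM yF nF yD zh pb_and exp_le_pw ex_nat)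
open Pool.TQ64 (TQ covQ)
open Pool.STAT.Glu (kN)
open Pool.LBL (Ld psi3)

set_option maxHeartbeats 4000000 in
/-- **The end of P5**, from the cells. -/
theorem p5x_of (hV : VCellS5) (n B : ℕ) (h₀ : ℝ) (hn : 1 ≤ n) (hB : 1 ≤ B) (hh₀ : 0 < h₀) :
    ∃ δ : ℝ, 0 < δ ∧ ∀ (K A : ℕ) (gam : ℕ → ℝ) (R : ℕ → Prop) (C₁ CL h : ℝ), h₀ ≤ h → h ≤ 1 →
      Gam3 n gam → (∀ l, 0 ≤ gam l) → (∀ l, gr gam n l → l < n → R l) → 1 ≤ C₁ →
      P5X2 n K A B gam R C₁ CL h δ := by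
  classical
  have hBr : (1 : ℝ) ≤ B := by exact_mod_cast hB
  have hc0 : 0 < h₀ / (4 * B) := by positivity
  have HC := fun c k0 k1 : ℕ => covQ c k0 k1 (h₀ / (4 * B)) (1 / 2) (1 / 4) 2 hc0 (by norm_num)
    (by norm_num) (by norm_num) (by norm_num)
  choose fx2 fp2 fη fio hfx hfp hfη hfio HC using HC
  obtain ⟨δ, hδ, hδ'⟩ := min_pos3 n fio hfio
  refine ⟨δ / 8, by positivity, ?_⟩
  intro K A gam R C₁ CL h hh hh1 hg3 gam0 hR C1
  obtain ⟨c, k0, k1, ys, gs, hcn, hk0n, hk1n, y1, y2, y3, y4, y5, g1, g2, g3, g4⟩ :=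
    enum_ex5 n gam hn
  have hδc : δ ≤ fio c k0 k1 := hδ' c (by omega) k0 hk0n k1 hk1n
  have HC := HC c k0 k1
  obtain ⟨x2, hx2⟩ : ∃ x2, x2 = fx2 c k0 k1 := ⟨_, rfl⟩
  obtain ⟨p2, hp2⟩ : ∃ p2, p2 = fp2 c k0 k1 := ⟨_, rfl⟩
  obtain ⟨η0, hη0⟩ : ∃ η0, η0 = fη c k0 k1 := ⟨_, rfl⟩
  obtain ⟨io, hio⟩ : ∃ io, io = fio c k0 k1 := ⟨_, rfl⟩
  have x20 : 0 < x2 := hx2 ▸ hfx c k0 k1
  have p20 : 0 < p2 := hp2 ▸ hfp c k0 k1
  have η00 : 0 < η0 := hη0 ▸ hfη c k0 k1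
  have io0 : 0 < io := hio ▸ hfio c k0 k1
  rw [← hx2, ← hp2, ← hη0, ← hio] at HC
  rw [← hio] at hδc
  choose FL hFL0 HL using fun (K' : ℕ) (C₀ : ℝ) =>
    labS5p n K K' (c + 1) k0 k1 (max C₀ 0) C₁ (le_max_right _ _) (by linarith)
  obtain ⟨K', C₀, C, hC₀, hCC, hF, HV⟩ := hV n K B gam C₁ CL h (c + 1) k0 k1 ys gs (Fin.last c)
    hn hB hg3 gam0 C1 (lt_of_lt_of_le hh₀ hh) hh1 y1 y2 y3 y4 y5 g1 g2 g3 g4 FL
  have e0 : max C₀ 0 = C₀ := max_eq_left (by linarith)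
  obtain ⟨c', hc', HL⟩ := HL K' C₀ C gam hF
  rw [e0] at HL
  obtain ⟨s, hs, HV⟩ := HV η0 η00
  obtain ⟨s1, hs1⟩ : ∃ s1, s1 = min s 1 := ⟨_, rfl⟩
  have hs10 : 0 < s1 := by rw [hs1]; exact lt_min hs one_pos
  have hs11 : s1 ≤ 1 := by rw [hs1]; exact min_le_right _ _
  have hs1s : s1 ≤ s := by rw [hs1]; exact min_le_left _ _
  have hk0r : (0 : ℝ) ≤ k0 := Nat.cast_nonneg k0
  have hk1r : (0 : ℝ) ≤ k1 := Nat.cast_nonneg k1
  obtain ⟨X0, HC⟩ := HC s1 hs10 hs11 (3 * ((k0 : ℝ) + k1) + 6) (by linarith)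
  obtain ⟨X1, hX1⟩ := Pool.POT.ex_ge (a := io / 2) (b := Real.log 2) (by positivity)
  obtain ⟨U1, hU1⟩ := ex_nat C (x := 1) one_pos
  obtain ⟨U2, hU2⟩ := num_cell5 c' (3 / 4) x2 A (by norm_num) x20
  obtain ⟨U, y, r, r2, r', r'', a, i, j, hUp, hU, -, HV⟩ := HV 2 (max U1 U2) 0 (io / 2) (δ / 8)
    (by norm_num) (by positivity) (by positivity) (by linarith)
  have hU1 := hU1 U ((le_max_left _ _).trans hU)
  have hU2' : U2 ≤ U := (le_max_right _ _).trans hU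
  obtain ⟨M, -, HV⟩ := HV 0
  obtain ⟨κ₁, z₁, hκ₁, HV⟩ := HV (p2 / 2) (by positivity)
  refine ⟨M, B * U, kN (max K K') 3, p2 / 2, κ₁, 1, max z₁ (max (max X0 X1) 1), by positivity,
    hκ₁, one_pos, le_rfl, ?_⟩
  intro lam J a₀ w₀ z D q Ug lam1 hz hO hDM hLLC hTm hNF hNFc hUg
  have hz1 : z₁ ≤ z := (le_max_left _ _).trans hz
  have hz2 : max X0 X1 ≤ z := (le_max_left _ _).trans ((le_max_right _ _).trans hz)
  have hz4 : 1 ≤ z := (le_max_right _ _).trans ((le_max_right _ _).trans hz)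
  have hq := hO.isLaw
  obtain ⟨w, E, P, S, hE, hO2⟩ := HV lam J a₀ w₀ z D q 1 lam1 hz1 le_rfl hO hDM hLLC hTm hNF hNFc
  -- numbers
  have hzr : (1 : ℝ) ≤ z := by exact_mod_cast hz4
  have hXz : z ≤ B * U * z := by
    have h1 : 1 * 1 * z ≤ B * U * z := Nat.mul_le_mul (Nat.mul_le_mul hB hUp) le_rfl
    omega
  have hXX0 : X0 ≤ B * U * z := ((le_max_left _ _).trans hz2).trans hXz
  have hXX1 : X1 ≤ B * U * z := ((le_max_right _ _).trans hz2).trans hXz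
  have hCz : exp (C * z) ≤ 2 ^ (B * U * z) := by
    have h1 := exp_le_pw (z := z) hB one_pos hU1
    rw [Pool.P4.pw_one] at h1
    exact h1
  have hyX : (2 : ℝ) ^ (B * U * z) ≤ 2 ^ (y * z) := by
    have h1 := hO2.hyp.yX
    have h2 : 1 ≤ exp (C * z) := Real.one_le_exp (mul_nonneg (by linarith) (by linarith))
    have h3 : (0 : ℝ) < 2 ^ (B * U * z) := by positivity
    nlinarith
  -- the record
  have hgeo := tq5_geo D J w z i j r (B * U * z) C P S ys gs q E (by linarith) hCz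
    hO2.hyp.geo.bS hO2.hyp.geo.bEl
  have hok := tq5_ok hq E hO2.ent hgeo
  have hlog : io / 2 * ((B * U * z : ℕ) : ℝ) + Real.log 2 ≤ io * ((B * U * z : ℕ) : ℝ) := by
    have := hX1 (B * U * z) hXX1
    linarith
  have hX0 : (0 : ℝ) ≤ ((B * U * z : ℕ) : ℝ) := Nat.cast_nonneg _
  have hioX : io / 2 * ((B * U * z : ℕ) : ℝ) ≤ io * ((B * U * z : ℕ) : ℝ) :=
    mul_le_mul_of_nonneg_right (by linarith) hX0
  have hvch := (vch_tq5 hO2.vch).mono hioX hioX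
    (Real.rpow_le_rpow_of_exponent_le (by norm_num) hioX)
  have hc0' : h₀ / (4 * B) ≤ h / (4 * B) := by
    rw [div_le_div_iff_of_pos_right (by positivity)]
    exact hh
  -- the covector
  obtain ⟨l, nD, nL, e, k1', k2, k3, k4⟩ := HC _ (B * U * z) hXX0 (hok.mono_d hlog)
    (tm_tq5 hq.nonneg hs1s hO2.tm) _ _ _ _ (Pool.P4.vch_c0 hvch hc0') (Lt D J w i j r)
    (fun ω => (D.pt ω, nP5 D J w z i j r a (B * U * z) C E P S ys gs q ω))
    (det_line5 D J w z i j r (B * U * z) C P S ys gs q E)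
    (fun ω ω' _ _ h => (Prod.ext_iff.1 h).2)
  have hi2 := hO2.hyp.i2
  have hj2 := hO2.hyp.j2
  have hiM : i ≤ M := by omega
  have hjM : j ≤ M := by omega
  have hN : ∀ ξ : ℝ, ξ ≤ 2 ^ ((1 / 2 + 1 / 4) * ((B * U * z : ℕ) : ℝ)) →
      ξ ≤ 2 ^ (3 / 4 * ((B * U * z : ℕ) : ℝ)) := fun ξ h => by
    refine h.trans (le_of_eq ?_)
    congr 1
    ring
  have happ : ∀ (ω : D.Ω) (u : Fin (k0 + k1)) (v : Fin (c + 1)),
      Fin.append ((tq5 (c := c + 1) (k0 := k0) (k1 := k1) D J w z i j r (B * U * z) C P S ys gs q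
        E).a (tv D J w z i j r (B * U * z) C S ys gs ω, E ω))
        ((tq5 (c := c + 1) (k0 := k0) (k1 := k1) D J w z i j r (B * U * z) C P S ys gs q
        E).cc (tv D J w z i j r (B * U * z) C S ys gs ω, E ω)) u v =
      (Sv (c := c + 1) (k0 := k0) (k1 := k1) D z (B * U * z) C S ys gs ω v u : ℝ) /
        2 ^ (B * U * z) := by
    intro ω u v
    refine Fin.addCases (fun a => ?_) (fun a => ?_) u
    · rw [Fin.append_left]
      rfl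
    · rw [Fin.append_right]
      rfl
  -- the label
  have hlab := HL D Ug R J a₀ w₀ z M w i j r r2 r' r'' y a (B * U * z) (B * U) A lam κ₁ q E P S
    ys gs hO2.hyp hO2.geo hO2.gd hUg
    (fun ω => (D.pt ω, nP5 D J w z i j r a (B * U * z) C E P S ys gs q ω)) l
    (2 ^ (3 / 4 * ((B * U * z : ℕ) : ℝ))) (2 ^ (-(x2 * ((B * U * z : ℕ) : ℝ)))) (p2 / 2) nD nL e
    (fun ω => ((∀ v, |(nD (D.pt ω, nP5 D J w z i j r a (B * U * z) C E P S ys gs q ω) ᵥ*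
        MF i j r E (rcd D i j r a) (cMx D J a₀ z i j r a E P gs) ω) v -
        nL (Lt D J w i j r ω) v| ≤ 2 ^ (-(x2 * ((B * U * z : ℕ) : ℝ)))) ∧
      ∀ u, |∑ v, nL (Lt D J w i j r ω) v *
        ((Sv (c := c + 1) (k0 := k0) (k1 := k1) D z (B * U * z) C S ys gs ω v u : ℝ) /
          2 ^ (B * U * z)) -
        ∑ m, e (Lt D J w i j r ω) m u *
          psi3 (fun ω => (tq J w (B * U * z) (D.T ω) : ℤ)) (B * U * z) ω m| ≤
          2 ^ (-(x2 * ((B * U * z : ℕ) : ℝ)))) ∧ E ω)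
    (Real.one_le_rpow (by norm_num) (by positivity)) (by positivity)
    (fun ω ω' hω hω' h => nP5_eq hO2.hyp.ok hiM hjM (fun ω h => (hO2.gd ω h).1) P S ys gs hω.2
      hω'.2 h)
    (fun x => ⟨(k1' x).1, fun u => hN _ ((k1' x).2 u)⟩)
    (fun x => ⟨(k2 x).1, fun u => hN _ ((k2 x).2 u)⟩)
    (fun x m u => hN _ (k3 x m u)) ?_ (fun ω h => h.2) (fun ω h => h.1.1) (fun ω h => h.1.2)
    (hU2 B U z y (B * U * z) hU2' hB hz4 rfl hyX)
  · refine ⟨gs l, (g1 l).1, (g1 l).2.1, ?_, i, hiM, j + 1, hlab.1.le, hlab.2⟩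
    by_cases hln : gs l = n
    · exact Or.inl hln
    · exact Or.inr ⟨hR _ (g1 l) (lt_of_le_of_ne (g1 l).2.1 hln), g1 l⟩
  · have h1 := pb_and hq.nonneg (fun ω =>
      ((∀ v, |(nD (D.pt ω, nP5 D J w z i j r a (B * U * z) C E P S ys gs q ω) ᵥ*
        MF i j r E (rcd D i j r a) (cMx D J a₀ z i j r a E P gs) ω) v -
        nL (Lt D J w i j r ω) v| ≤ 2 ^ (-(x2 * ((B * U * z : ℕ) : ℝ)))) ∧
      ∀ u, |∑ v, nL (Lt D J w i j r ω) v *
        ((Sv (c := c + 1) (k0 := k0) (k1 := k1) D z (B * U * z) C S ys gs ω v u : ℝ) /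
          2 ^ (B * U * z)) -
        ∑ m, e (Lt D J w i j r ω) m u *
          psi3 (fun ω => (tq J w (B * U * z) (D.T ω) : ℤ)) (B * U * z) ω m| ≤
          2 ^ (-(x2 * ((B * U * z : ℕ) : ℝ))))) E
    have h2 : p2 ≤ Pb q (fun ω =>
      ((∀ v, |(nD (D.pt ω, nP5 D J w z i j r a (B * U * z) C E P S ys gs q ω) ᵥ*
        MF i j r E (rcd D i j r a) (cMx D J a₀ z i j r a E P gs) ω) v -
        nL (Lt D J w i j r ω) v| ≤ 2 ^ (-(x2 * ((B * U * z : ℕ) : ℝ)))) ∧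
      ∀ u, |∑ v, nL (Lt D J w i j r ω) v *
        ((Sv (c := c + 1) (k0 := k0) (k1 := k1) D z (B * U * z) C S ys gs ω v u : ℝ) /
          2 ^ (B * U * z)) -
        ∑ m, e (Lt D J w i j r ω) m u *
          psi3 (fun ω => (tq J w (B * U * z) (D.T ω) : ℤ)) (B * U * z) ω m| ≤
          2 ^ (-(x2 * ((B * U * z : ℕ) : ℝ))))) := by
      refine k4.trans (Pool.POT.pb_mono hq.nonneg fun ω _ hω => ⟨hω.1, fun u => ?_⟩)
      have h3 := hω.2 u
      have h4 : ∀ v, nL (Lt D J w i j r ω) v * Fin.append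
          ((tq5 (c := c + 1) (k0 := k0) (k1 := k1) D J w z i j r (B * U * z) C P S ys gs q
            E).a (tv D J w z i j r (B * U * z) C S ys gs ω, E ω))
          ((tq5 (c := c + 1) (k0 := k0) (k1 := k1) D J w z i j r (B * U * z) C P S ys gs q
            E).cc (tv D J w z i j r (B * U * z) C S ys gs ω, E ω)) u v =
          nL (Lt D J w i j r ω) v * ((Sv (c := c + 1) (k0 := k0) (k1 := k1) D z (B * U * z) C S
            ys gs ω v u : ℝ) / 2 ^ (B * U * z)) := fun v => by rw [happ]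
      rw [← Finset.sum_congr rfl fun v _ => h4 v]
      exact h3
    linarith

end Pool.P5
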