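import Pool.Agent.H21.P5.CovQ
import Pool.Agent.H52.P5.LabS
import Pool.Agent.H14.P5.Cell
import Pool.Agent.H14.P5.Red2
import Pool.Agent.H98.P5.Dch
import Pool.Agent.H89.P4.V8

/-!
# P5, the last assembly: the statements of the inputs

`VCellS5`: in every cell with the slopes `0, 1, 2` there is a place with small entropies and a
visible chart.
-/

set_option autoImplicit false

namespace Pool.P5

open Finset Real MvPolynomial Matrix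
open Pool.Agent.H49.Ent Pool.Agent.H32.Dense Pool.STK Pool.STAT Pool.MIC.Frm Pool.MIC7 Pool.FRM
open Pool.GSD
open Pool.BFL (Pb)
open Pool.POT (VCh)
open Pool.P4 (t0 rt pp bb ze zt z0 be cl1 dg dgp Ry cb LLC tq GoodS FrP GnL NewLabT NFc Fx Dic LT
  Lt NBT MF rcd cMx cM yF nF yD zh)

/-- The output of a cell. -/
structure VOutD5 (D : NDat2) (n K K' J a₀ w₀ z M w i j r r2 r' r'' a y X : ℕ) (lam gam : ℕ → ℝ)
    (κ C₁ C₀ C : ℝ) (q : D.Ω → ℝ) (E : D.Ω → Prop) (P : D.Γ × D.Γ → ℕ → PN)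
    (S : Slo D) {c k0 k1 : ℕ} (ys : Fin (k0 + k1) → ℕ) (gs : Fin c → ℕ) (n₀ : Fin c) (B B' : ℕ)
    (h c0 io s η : ℝ) : Prop where
  hyp : Hyp D n K K' J a₀ w₀ z M w i j r r2 r' r'' y a X lam gam κ C₁ C q E P S ys gs
  geo : Geo D n K' J w₀ z i j r r2 r' r'' gam C₀ (exp (C₀ * z) / 2 ^ (y * z)) q E P S
  gd : ∀ ω, E ω → 0 < q ω ∧ GoodS D n K' w₀ z M C₀ ω ∧
    FrP D n K' z i j r C₀ (P (bb D i j r ω)) ω
  ent : Ent5 D J w z i j r X C P S ys gs q n₀ B B' h (io * X)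
  tm : (qh (c := c) (k0 := k0) (k1 := k1) D J w z i j r X C P S ys gs q).TM X s η
  vch : VCh ((qh (c := c) (k0 := k0) (k1 := k1) D J w z i j r X C P S ys gs q).flag E) X B' n₀ c0
    (io * X) (io * X) (2 ^ (io * X)) (fun ω => (E ω, rcd D i j r a ω))
    (yF E (yD z X C (zh D i j r a E P) ys))
    (nF E (nuD z X C (zh D i j r a E P) gs)
      (qh (c := c) (k0 := k0) (k1 := k1) D J w z i j r X C P S ys gs q).hgt)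
    (MF i j r E (rcd D i j r a) (cMx D J a₀ z i j r a E P gs))

/-- **(VCELL5)** In every cell there is a place with a visible chart. -/
def VCellS5 : Prop :=
  ∀ (n K B : ℕ) (gam : ℕ → ℝ) (C₁ CL h : ℝ) (c k0 k1 : ℕ) (ys : Fin (k0 + k1) → ℕ)
    (gs : Fin c → ℕ) (n₀ : Fin c), 1 ≤ n → 1 ≤ B → Gam3 n gam → (∀ l, 0 ≤ gam l) → 1 ≤ C₁ →
    0 < h → h ≤ 1 → Function.Injective ys →
    (∀ a, sl0 gam n (ys (Fin.castAdd k1 a))) → (∀ a, sl1 gam n (ys (Fin.natAdd k0 a))) →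
    (∀ l, sl0 gam n l → ∃ a, ys (Fin.castAdd k1 a) = l) →
    (∀ l, sl1 gam n l → ∃ a, ys (Fin.natAdd k0 a) = l) →
    (∀ u, gr gam n (gs u)) → StrictMono gs → (∀ l, gr gam n l → ∃ u, gs u = l) →
    gs n₀ = n → ∀ F : ℕ → ℝ → ℝ,
    ∃ (K' : ℕ) (C₀ C : ℝ), 1 ≤ C₀ ∧ C₀ ≤ C ∧ F K' C₀ ≤ C ∧ ∀ η : ℝ, 0 < η → ∃ s : ℝ, 0 < s ∧
    ∀ (B' U₀ y₀ : ℕ) (io δ : ℝ), 1 ≤ B' → 0 < io → 0 < δ → 4 * δ ≤ io →
    ∃ U y r r2 r' r'' a i j : ℕ, 1 ≤ U ∧ U₀ ≤ U ∧ y₀ ≤ y ∧ ∀ M₀ : ℕ, ∃ M : ℕ, M₀ ≤ M ∧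
    ∀ e : ℝ, 0 < e → ∃ (κ : ℝ) (z₀ : ℕ), 0 < κ ∧
    ∀ (lam : ℕ → ℝ) (J a₀ w₀ z : ℕ) (D : NDat2) (q : D.Ω → ℝ) (ϖ : ℝ),
      (∀ l, 1 ≤ l → l ≤ n → lam l = 1) → z₀ ≤ z → ϖ ≤ 1 →
      D.Ok2 n K J a₀ w₀ z M lam gam κ C₁ q → D.DMA z M κ q → LLC D n z M CL q →
      D.TmU J w₀ z κ q → D.NF n z M B gam h C₁ ϖ q → NFc D n z M B gam (h + δ) C₁ q →
      ∃ (w : ℕ) (E : D.Ω → Prop) (P : D.Γ × D.Γ → ℕ → PN) (S : Slo D),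
        Pb q (fun ω => ¬ E ω) ≤ e ∧
        VOutD5 D n K K' J a₀ w₀ z M w i j r r2 r' r'' a y (B * U * z) lam gam κ C₁ C₀ C q E P S
          ys gs n₀ B B' h (h / (4 * B)) io s η

end Pool.P5
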