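import Pool.Agent.H21.P5.Pot5
import Pool.Agent.H36.P5.CovT
import Pool.Agent.H64.P5.D12s

/-!
# P5: the conserved covector of the record

`covQ`: for a record with a visible chart whose target is not full, there is a covector which is
visible and a function of the exact line, and which makes all slopes quadratic in the time.
-/

set_option autoImplicit false

namespace Pool.TQ64

open Finset Real Matrix
open Pool.Agent.H49.Ent Pool.Agent.H32.Dense Pool.STK Pool.KS6 Pool.SLO Pool.QT64 Pool.FAD Pool.POT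
open Pool.BFL (Pb)
open Pool.LBL (Ad Ld Uni psi3)

variable {c k0 k1 : ℕ}

theorem TQ.Ok.mono_d {Q : TQ c k0 k1} {X : ℕ} {C d d' : ℝ} (h : Q.Ok X C d) (hd : d ≤ d') :
    Q.Ok X C d' :=
  { h with
    h0 := h.h0.trans hd
    h2 := h.h2.trans hd
    t_f := by
      have := h.t_f
      linarith
    l_f := by
      have := h.l_f
      linarith
    y_f := by
      have := h.y_f
      linarith }

theorem TQ.TM.mono {Q : TQ c k0 k1} {X : ℕ} {s η η' : ℝ} (h : Q.TM X s η) (hη : η ≤ η') :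
    Q.TM X s η' := le_trans h hη

set_option maxHeartbeats 4000000 in
/-- **The conserved covector of the record.** -/
theorem covQ (c k0 k1 : ℕ) (c0 ep w0 : ℝ) (B : ℕ) (hc0 : 0 < c0)
    (hep : 0 < ep) (hw0 : 0 < w0) (hB : 0 < B) (hBe : 1 / (B : ℝ) ≤ ep) :
    ∃ x2 p2 η0 io : ℝ, 0 < x2 ∧ 0 < p2 ∧ 0 < η0 ∧ 0 < io ∧ ∀ s : ℝ, 0 < s → s ≤ 1 →
    ∀ C : ℝ, 1 ≤ C → ∃ X0 : ℕ, ∀ (Q : TQ (c + 1) k0 k1) (X : ℕ), X0 ≤ X → Q.Ok X C (io * X) →
    Q.TM X s η0 →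
    ∀ {σ υ : Type} (s' : Q.Ω → σ) (y : Q.Ω → υ) (n : Q.Ω → Fin (c + 1) → ℤ)
      (M : Q.Ω → Matrix (Fin (c + 1)) (Fin (c + 1)) ℝ),
    VCh Q.h0 X B (Fin.last c) c0 (io * X) (io * X) (2 ^ (io * X)) s' y n M →
    ∀ {Λ' Ξ : Type} (L' : Q.Ω → Λ') (pt : Q.Ω → Ξ), Det Q.p L' Q.line →
    Det Q.p pt (fun ω => (s' ω, (y ω, n ω))) →
    ∃ (l : Fin (c + 1)) (nD : Ξ → Fin (c + 1) → ℝ) (nL : Λ' → Fin (c + 1) → ℝ)
      (e : Λ' → Fin 3 → Fin (k0 + k1) → ℝ),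
      (∀ ξ, Ld l (nD ξ) ∧ ∀ i, |nD ξ i| ≤ 2 ^ ((ep + w0) * X)) ∧
      (∀ z, Ld l (nL z) ∧ ∀ i, |nL z i| ≤ 2 ^ ((ep + w0) * X)) ∧
      (∀ z j u, |e z j u| ≤ 2 ^ ((ep + w0) * X)) ∧
      p2 ≤ Pb Q.p (fun ω =>
        (∀ i, |(nD (pt ω) ᵥ* M ω) i - nL (L' ω) i| ≤ 2 ^ (-(x2 * X))) ∧
        ∀ u, |∑ i, nL (L' ω) i * Fin.append (Q.a (Q.th ω)) (Q.cc (Q.th ω)) u i -
          ∑ j, e (L' ω) j u * psi3 (fun ω => Q.tm (Q.th ω)) X ω j| ≤ 2 ^ (-(x2 * X))) := by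
  obtain ⟨x2, p2, η, κ, hx2, hp2, hη, hκ, hηp, hκx, cov⟩ :=
    cov5T (c + 1) k0 k1 (Fin.last c) (fun i => Fin.le_last i) (c0 / 4) (c0 / 2) ep w0
      (by positivity) (by positivity) hep hw0
  obtain ⟨io1, hio1, pot⟩ := pot5 (c + 1) k0 k1 (Fin.last c) (fun i => Fin.le_last i) c0 (c0 / 2)
    κ η B (by positivity) hκ hη hB
  obtain ⟨η1, hη1, io2, hio2, dat⟩ := d12s c k0 k1 io1 hio1
  obtain ⟨io, hio⟩ : ∃ io, io = min κ (min io1 io2) := ⟨_, rfl⟩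
  have hio0 : 0 < io := by rw [hio]; exact lt_min hκ (lt_min hio1 hio2)
  have hioa : io ≤ κ := by rw [hio]; exact min_le_left _ _
  have hiob : io ≤ io1 := by rw [hio]; exact (min_le_right _ _).trans (min_le_left _ _)
  have hioc : io ≤ io2 := by rw [hio]; exact (min_le_right _ _).trans (min_le_right _ _)
  refine ⟨x2, p2, min η η1, io, hx2, hp2, lt_min hη hη1, hio0, ?_⟩
  intro s hs hs1 C hC
  obtain ⟨X1, cov⟩ := cov s hs hs1
  obtain ⟨r1, r2, X2, dat⟩ := dat s hs C hC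
  obtain ⟨X3, pot⟩ := pot r1 r2
  obtain ⟨X4, h4⟩ := ex_pw (a := κ) hκ C
  refine ⟨max (max X1 X2) (max X3 X4), ?_⟩
  intro Q X hX ok hTM σ υ s' y n M hV Λ' Ξ L' pt hLL hPP
  have hX1 : X1 ≤ X := (le_max_left _ _).trans ((le_max_left _ _).trans hX)
  have hX2 : X2 ≤ X := (le_max_right _ _).trans ((le_max_left _ _).trans hX)
  have hX3 : X3 ≤ X := (le_max_left _ _).trans ((le_max_right _ _).trans hX)
  have hX4 : X4 ≤ X := (le_max_right _ _).trans ((le_max_right _ _).trans hX)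
  have hCκ : C ≤ 2 ^ (κ * X) := h4 X hX4
  have hX0 : (0 : ℝ) ≤ X := Nat.cast_nonneg X
  have m1 : io * X ≤ κ * X := mul_le_mul_of_nonneg_right hioa hX0
  have m2 : io * X ≤ io1 * X := mul_le_mul_of_nonneg_right hiob hX0
  have m3 : io * X ≤ io2 * X := mul_le_mul_of_nonneg_right hioc hX0
  have p1 : (2 : ℝ) ^ (io * X) ≤ 2 ^ (κ * X) := Real.rpow_le_rpow_of_exponent_le (by norm_num) m1
  have p2' : (2 : ℝ) ^ (io * X) ≤ 2 ^ (io1 * X) :=
    Real.rpow_le_rpow_of_exponent_le (by norm_num) m2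
  obtain ⟨d1, d2, d3', d4⟩ := dat Q X hX2 (ok.mono_d m3) (hTM.mono (min_le_right _ _))
  obtain ⟨A, hA, hcv, htr, hF1, hF2⟩ := pot Q X s hX3 ok.law (ok.h0.trans m2) (ok.h2.trans m2)
    d1 d2 d3' d4 s' y n M (hV.mono m2 m2 p2')
  obtain ⟨l, nD, nL, e, -, k1', k2, k3, -, k5⟩ := cov X hX1 Q (fun ω => (s' ω, (y ω, n ω))) L' pt
    ok.law ok.tm_r (fun ω u i => (ok.a_b ω u i).trans hCκ) (fun ω u i => (ok.cc_b ω u i).trans hCκ)
    (fun ω ω' i r u => (ok.El_b ω ω' i r u).trans hCκ) (fun ω u i => (ok.Ev_b ω u i).trans hCκ)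
    hLL hPP A M ∅ (fun _ _ _ => 0) (fun _ _ _ => 0) (fun _ _ _ _ => 0) (fun _ => True) B hBe
    (fun R => (hA R).1) (fun R => (hA R).2.1) (fun R => (hA R).2.2)
    (fun ω => ⟨hV.one ω, hV.low ω⟩) (fun ω i j => (hV.ent ω i j).trans p1)
    (fun ω i j => (hV.inv ω i j).trans p1) (Finset.notMem_empty _) (by
      have : Pb Q.p (fun _ => ¬ True) = 0 := by
        rw [Pb_eq_Ex]
        unfold Ex ind
        simp
      rw [this]
      exact hη.le)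
    (fun ξ g hg => absurd hg (Finset.notMem_empty _))
    (fun ω _ _ g hg => absurd hg (Finset.notMem_empty _))
    (fun ω _ _ g hg => absurd hg (Finset.notMem_empty _))
    (fun z g hg => absurd hg (Finset.notMem_empty _))
    (le_trans (by linarith) hcv) htr hF1 hF2 (hTM.mono (min_le_left _ _))
  refine ⟨l, nD, nL, e, fun ξ => ⟨(k1' ξ).1, (k1' ξ).2.2⟩, k2, k3, k5.trans (Pool.POT.pb_mono
    (fun ω => ok.law.nonneg ω) fun ω _ hω => ⟨fun i => ?_, hω.2⟩)⟩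
  obtain ⟨⟨r, -, hr⟩, -⟩ := hω
  have := hr i
  rw [Finset.sum_empty, add_zero] at this
  exact this

end Pool.TQ64
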