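import Pool.Agent.H12.P5.Stm
import Mathlib.Data.Finset.Sort

/-!
# P5, the last assembly: enumerations and constants
-/

set_option autoImplicit false

namespace Pool.P5

open Finset Real

/-- The coordinates of a class, enumerated. -/
theorem enum_cls (n : ℕ) (Pr : ℕ → Prop) (hP : ∀ l, Pr l → 1 ≤ l ∧ l ≤ n) :
    ∃ (k : ℕ) (ys : Fin k → ℕ), k ≤ n ∧ StrictMono ys ∧ (∀ a, Pr (ys a)) ∧
      ∀ l, Pr l → ∃ a, ys a = l := by
  classical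
  obtain ⟨Y, hY⟩ : ∃ Y : Finset ℕ, Y = (Finset.Icc 1 n).filter Pr := ⟨_, rfl⟩
  have memY : ∀ l, l ∈ Y ↔ Pr l := by
    intro l
    rw [hY, Finset.mem_filter, Finset.mem_Icc]
    exact ⟨fun h => h.2, fun h => ⟨hP l h, h⟩⟩
  have hkn : Y.card ≤ n := by
    rw [hY]
    refine (Finset.card_filter_le _ _).trans ?_
    rw [Nat.card_Icc]
    omega
  refine ⟨Y.card, Y.orderEmbOfFin rfl, hkn, (Y.orderEmbOfFin rfl).strictMono, ?_, ?_⟩
  · intro a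
    exact (memY _).1 (Finset.orderEmbOfFin_mem _ _ _)
  · intro l hl
    have h := Finset.range_orderEmbOfFin Y rfl
    have h2 : l ∈ Set.range (Y.orderEmbOfFin rfl) := by
      rw [h]
      exact (memY l).2 hl
    exact h2

/-- The slow coordinates and the group, enumerated. -/
theorem enum_ex5 (n : ℕ) (gam : ℕ → ℝ) (hn : 1 ≤ n) :
    ∃ (c k0 k1 : ℕ) (ys : Fin (k0 + k1) → ℕ) (gs : Fin (c + 1) → ℕ), c + 1 ≤ n ∧ k0 ≤ n ∧
      k1 ≤ n ∧ Function.Injective ys ∧ (∀ a, sl0 gam n (ys (Fin.castAdd k1 a))) ∧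
      (∀ a, sl1 gam n (ys (Fin.natAdd k0 a))) ∧
      (∀ l, sl0 gam n l → ∃ a, ys (Fin.castAdd k1 a) = l) ∧
      (∀ l, sl1 gam n l → ∃ a, ys (Fin.natAdd k0 a) = l) ∧
      (∀ u, gr gam n (gs u)) ∧ StrictMono gs ∧ (∀ l, gr gam n l → ∃ u, gs u = l) ∧
      gs (Fin.last c) = n := by
  obtain ⟨k0, y0, hk0, m0, p0, o0⟩ := enum_cls n (sl0 gam n) (fun l h => ⟨h.1, h.2.1.le⟩)
  obtain ⟨k1, y1, hk1, m1, p1, o1⟩ := enum_cls n (sl1 gam n) (fun l h => ⟨h.1, h.2.1.le⟩)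
  obtain ⟨g, gs, hg, mg, pg, og⟩ := enum_cls n (gr gam n) (fun l h => ⟨h.1, h.2.1⟩)
  obtain ⟨u0, hu0⟩ := og n ⟨hn, le_rfl, le_rfl⟩
  obtain ⟨c, rfl⟩ : ∃ c, g = c + 1 := ⟨g - 1, by
    have := u0.2
    omega⟩
  obtain ⟨ys, el, er⟩ : ∃ ys : Fin (k0 + k1) → ℕ, (∀ a, ys (Fin.castAdd k1 a) = y0 a) ∧
      ∀ a, ys (Fin.natAdd k0 a) = y1 a :=
    ⟨Fin.append y0 y1, fun a => Fin.append_left _ _ _, fun a => Fin.append_right _ _ _⟩
  refine ⟨c, k0, k1, ys, gs, hg, hk0, hk1, ?_, ?_, ?_, ?_, ?_, pg, mg, og, ?_⟩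
  · intro a b
    refine Fin.addCases (fun a => ?_) (fun a => ?_) a <;>
      refine Fin.addCases (fun b => ?_) (fun b => ?_) b <;> intro h
    · rw [el, el] at h
      rw [m0.injective h]
    · rw [el, er] at h
      exact (sl0_sl1 (h ▸ p0 a) (p1 b)).elim
    · rw [er, el] at h
      exact (sl0_sl1 (p0 b) (h ▸ p1 a)).elim
    · rw [er, er] at h
      rw [m1.injective h]
  · intro a
    rw [el]
    exact p0 a
  · intro a
    rw [er]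
    exact p1 a
  · intro l hl
    obtain ⟨a, ha⟩ := o0 l hl
    exact ⟨a, by rw [el]; exact ha⟩
  · intro l hl
    obtain ⟨a, ha⟩ := o1 l hl
    exact ⟨a, by rw [er]; exact ha⟩
  · refine le_antisymm (pg _).2.1 ?_
    rw [← hu0]
    exact mg.monotone (Fin.le_last u0)

/-- A lower bound of finitely many positive numbers. -/
theorem min_pos3 (n : ℕ) (f : ℕ → ℕ → ℕ → ℝ) (hf : ∀ c k l, 0 < f c k l) :
    ∃ δ : ℝ, 0 < δ ∧ ∀ c ≤ n, ∀ k ≤ n, ∀ l ≤ n, δ ≤ f c k l := by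
  obtain ⟨S, hS⟩ : ∃ S : Finset (ℕ × (ℕ × ℕ)), S = Finset.range (n + 1) ×ˢ
    (Finset.range (n + 1) ×ˢ Finset.range (n + 1)) := ⟨_, rfl⟩
  have hne : S.Nonempty := ⟨(0, (0, 0)), by rw [hS]; simp⟩
  refine ⟨S.inf' hne fun x => f x.1 x.2.1 x.2.2, ?_, fun c hc k hk l hl => ?_⟩
  · rw [Finset.lt_inf'_iff]
    exact fun x _ => hf _ _ _
  · refine Finset.inf'_le (fun x : ℕ × (ℕ × ℕ) => f x.1 x.2.1 x.2.2) (b := (c, (k, l))) ?_
    rw [hS, Finset.mem_product, Finset.mem_product, Finset.mem_range, Finset.mem_range,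
      Finset.mem_range]
    exact ⟨Nat.lt_succ_of_le hc, Nat.lt_succ_of_le hk, Nat.lt_succ_of_le hl⟩

end Pool.P5
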