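import Pool.Agent.H48.P5.Gq
import Pool.Agent.H14.P5.Cell
import Pool.Agent.H89.P4.V1

/-!
# P5: the record of a cell satisfies the hypotheses

`tq5_ok`: the bounds (`TGeo`) and the entropies of a place (`Ent5`) give `TQ.Ok`.
-/

set_option autoImplicit false

namespace Pool.P5

open Finset Real
open Pool.Agent.H49.Ent Pool.Agent.H32.Dense Pool.STK Pool.STAT Pool.MIC.Frm Pool.MIC7 Pool.FRM
open Pool.GSD
open Pool.P4 (t0 rt pp bb ze zt z0 be cl1 dg dgp Ry cb LLC tq)
open Pool.TQ64 (TQ)
open Pool.QT64 (CH_prop)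

variable {c k0 k1 : ℕ} {D : NDat2} {J w z i j r X : ℕ} {C : ℝ} {P : D.Γ × D.Γ → ℕ → PN}
  {S : Slo D} {ys : Fin (k0 + k1) → ℕ} {gs : Fin c → ℕ} {q : D.Ω → ℝ} {n₀ : Fin c} {B B' : ℕ}
  {h d : ℝ}

/-- **The record of a cell satisfies the hypotheses.** -/
theorem tq5_ok {C' : ℝ} (hq : IsLaw q) (E : D.Ω → Prop)
    (ent : Ent5 D J w z i j r X C P S ys gs q n₀ B B' h d)
    (bd : TGeo (tq5 (c := c) (k0 := k0) (k1 := k1) D J w z i j r X C P S ys gs q E) X C') :
    (tq5 (c := c) (k0 := k0) (k1 := k1) D J w z i j r X C P S ys gs q E).Ok X C'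
      (d + Real.log 2) := by
  have hp := hq.nonneg
  have l2 : 0 ≤ Real.log 2 := Real.log_nonneg (by norm_num)
  refine
    { law := hq
      tm_r := bd.tm_r
      y_r := bd.y_r
      l_r := bd.l_r
      m_b := bd.m_b
      b1_b := bd.b1_b
      b2_b := bd.b2_b
      a_b := bd.a_b
      cc_b := bd.cc_b
      El_b := bd.El_b
      Ev_b := bd.Ev_b
      hgt_b := bd.hgt_b
      g_eq := bd.g_eq
      h0 := ?_
      h2 := ?_
      t_f := ?_
      l_f := ?_
      y_f := ?_ }
  · change CH q (fun ω => (tv (c := c) D J w z i j r X C S ys gs ω, E ω)) (cb D J w i j r) -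
      CH q (fun ω => (tv (c := c) D J w z i j r X C S ys gs ω, E ω))
        (qh (c := c) (k0 := k0) (k1 := k1) D J w z i j r X C P S ys gs q).line ≤ _
    have h1 := ent.h0
    have h2 := CH_chain hp E (tv (c := c) D J w z i j r X C S ys gs) (cb D J w i j r)
    have h3 : CH q (fun ω => (tv (c := c) D J w z i j r X C S ys gs ω, E ω)) (cb D J w i j r) =
        CH q (fun ω => (E ω, tv (c := c) D J w z i j r X C S ys gs ω)) (cb D J w i j r) := by
      refine CH_congr hp ?_ ?_ (fun _ _ _ _ h => h) (fun _ _ _ _ h => h)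
      · intro ω ω' _ _ e
        have e1 := (Prod.ext_iff.mp e).1
        exact Prod.ext (Prod.ext_iff.mp e1).2 (Prod.ext_iff.mp e1).1
      · intro ω ω' _ _ e
        have e1 := (Prod.ext_iff.mp e).1
        exact Prod.ext (Prod.ext_iff.mp e1).2 (Prod.ext_iff.mp e1).1
    have h4 : CH q (tv (c := c) D J w z i j r X C S ys gs)
        (qh (c := c) (k0 := k0) (k1 := k1) D J w z i j r X C P S ys gs q).line ≤
        CH q (fun ω => (tv (c := c) D J w z i j r X C S ys gs ω, E ω))
        (qh (c := c) (k0 := k0) (k1 := k1) D J w z i j r X C P S ys gs q).line :=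
      CH_mono_left hp fun ω ω' _ _ e => (Prod.ext_iff.mp (Prod.ext_iff.mp e).1).1
    have h5 := CH_prop hq E
      (fun ω => (tv (c := c) D J w z i j r X C S ys gs ω, cb D J w i j r ω))
    linarith
  · obtain ⟨hg, hhg⟩ : ∃ hg, hg =
        (qh (c := c) (k0 := k0) (k1 := k1) D J w z i j r X C P S ys gs q).hgt := ⟨_, rfl⟩
    have h1 := ent.h2
    rw [← hhg] at h1
    have e0 : (tq5 (c := c) (k0 := k0) (k1 := k1) D J w z i j r X C P S ys gs q E).hgt = hg := by
      rw [hhg]
      rfl
    rw [e0]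
    change CH q hg (fun ω => ((tv (c := c) D J w z i j r X C S ys gs ω, E ω),
        cb D J w i j r ω)) -
      CH q hg (fun ω => (vv D J w z i j r X C P ys gs ω,
        ((tv (c := c) D J w z i j r X C S ys gs ω, E ω), cb D J w i j r ω))) ≤ _
    have h2 : CH q hg (fun ω => ((tv (c := c) D J w z i j r X C S ys gs ω, E ω),
        cb D J w i j r ω)) ≤
        CH q hg (fun ω => (tv (c := c) D J w z i j r X C S ys gs ω, cb D J w i j r ω)) :=
      CH_mono_cond hp fun ω ω' _ _ e => by
        have e1 := (Prod.ext_iff.mp e).1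
        exact Prod.ext (Prod.ext_iff.mp e1).1 (Prod.ext_iff.mp e).2
    have h3 := CH_le_add hp hg E (fun ω => (vv D J w z i j r X C P ys gs ω,
      (tv (c := c) D J w z i j r X C S ys gs ω, cb D J w i j r ω)))
    have h4 : CH q hg (fun ω => (E ω, (vv D J w z i j r X C P ys gs ω,
        (tv (c := c) D J w z i j r X C S ys gs ω, cb D J w i j r ω)))) ≤
        CH q hg (fun ω => (vv D J w z i j r X C P ys gs ω,
        ((tv (c := c) D J w z i j r X C S ys gs ω, E ω), cb D J w i j r ω))) :=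
      CH_mono_cond hp fun ω ω' _ _ e => by
        have e1 := (Prod.ext_iff.mp e).1
        have e2 := (Prod.ext_iff.mp e).2
        have e3 := (Prod.ext_iff.mp e2).2
        exact Prod.ext (Prod.ext_iff.mp e2).1 (Prod.ext (Prod.ext (Prod.ext_iff.mp e3).1 e1)
          (Prod.ext_iff.mp e3).2)
    have h5 := CH_prop hq E (fun ω => (vv D J w z i j r X C P ys gs ω,
      (tv (c := c) D J w z i j r X C S ys gs ω, cb D J w i j r ω)))
    linarith
  · have h1 := ent.tf
    have h2 : CH q (fun ω => ((tq J w X (D.T ω) : ℕ) : ℤ)) (cb D J w i j r) =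
        CH q (fun ω => tq J w X (D.T ω)) (cb D J w i j r) := by
      refine CH_congr hp ?_ ?_ (fun _ _ _ _ h => h) (fun _ _ _ _ h => h)
      · intro ω ω' _ _ e
        have e1 : ((tq J w X (D.T ω) : ℕ) : ℤ) = ((tq J w X (D.T ω') : ℕ) : ℤ) :=
          (Prod.ext_iff.mp e).1
        exact Nat.cast_injective e1
      · intro ω ω' _ _ e
        have e1 : tq J w X (D.T ω) = tq J w X (D.T ω') := (Prod.ext_iff.mp e).1
        exact congrArg (fun x : ℕ => (x : ℤ)) e1
    change X * Real.log 2 - (d + Real.log 2) ≤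
      CH q (fun ω => ((tq J w X (D.T ω) : ℕ) : ℤ)) (cb D J w i j r)
    rw [h2]
    linarith
  · have h1 := ent.lf
    change (k1 : ℝ) * X * Real.log 2 - (d + Real.log 2) ≤
      CH q (fun ω (l : Fin k1) => yv (k0 := k0) (k1 := k1) D J w z i j r X C P ys ω
        (Fin.natAdd k0 l))
      (fun ω => (cb D J w i j r ω, ((fun a : Fin k0 =>
        yv (k0 := k0) (k1 := k1) D J w z i j r X C P ys ω (Fin.castAdd k1 a)),
          (mv D J w z i j r X C P ys ω, be2v D J w z i j r X C P gs ω))))
    linarith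
  · have h1 := ent.rf
    obtain ⟨Y, hY⟩ : ∃ Y : D.Ω → Fin k0 → ℤ, Y = fun ω (a : Fin k0) =>
      yv (k0 := k0) (k1 := k1) D J w z i j r X C P ys ω (Fin.castAdd k1 a) := ⟨_, rfl⟩
    rw [← hY] at h1
    change (k0 : ℝ) * X * Real.log 2 - (d + Real.log 2) ≤ CH q (fun ω (a : Fin k0) =>
      yv (k0 := k0) (k1 := k1) D J w z i j r X C P ys ω (Fin.castAdd k1 a))
      (fun ω => (cb D J w i j r ω, ((tv (c := c) D J w z i j r X C S ys gs ω, E ω),
        ((tq5 (c := c) (k0 := k0) (k1 := k1) D J w z i j r X C P S ys gs q E).la X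
          (tv (c := c) D J w z i j r X C S ys gs ω, E ω) (vv D J w z i j r X C P ys gs ω),
        (tq5 (c := c) (k0 := k0) (k1 := k1) D J w z i j r X C P S ys gs q E).wv X
          (tv (c := c) D J w z i j r X C S ys gs ω, E ω) (vv D J w z i j r X C P ys gs ω)))))
    rw [← hY]
    have h3 := CH_le_add hp Y E (fun ω => (cb D J w i j r ω,
      (tv (c := c) D J w z i j r X C S ys gs ω,
        fR J w X (tv (c := c) D J w z i j r X C S ys gs ω) (vv D J w z i j r X C P ys gs ω))))
    have h5 := CH_prop hq E (fun ω => (cb D J w i j r ω,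
      (tv (c := c) D J w z i j r X C S ys gs ω,
        fR J w X (tv (c := c) D J w z i j r X C S ys gs ω) (vv D J w z i j r X C P ys gs ω))))
    have h4 : CH q Y (fun ω => (E ω, (cb D J w i j r ω,
        (tv (c := c) D J w z i j r X C S ys gs ω,
        fR J w X (tv (c := c) D J w z i j r X C S ys gs ω)
          (vv D J w z i j r X C P ys gs ω))))) ≤
        CH q Y (fun ω => (cb D J w i j r ω, ((tv (c := c) D J w z i j r X C S ys gs ω, E ω),
        ((tq5 (c := c) (k0 := k0) (k1 := k1) D J w z i j r X C P S ys gs q E).la X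
          (tv (c := c) D J w z i j r X C S ys gs ω, E ω) (vv D J w z i j r X C P ys gs ω),
        (tq5 (c := c) (k0 := k0) (k1 := k1) D J w z i j r X C P S ys gs q E).wv X
          (tv (c := c) D J w z i j r X C S ys gs ω, E ω)
          (vv D J w z i j r X C P ys gs ω))))) := by
      refine CH_mono_cond hp fun ω ω' _ _ e => ?_
      have e1 := (Prod.ext_iff.mp e).1
      have e0 := (Prod.ext_iff.mp e).2
      have e2 := (Prod.ext_iff.mp e0).1
      have e3 := (Prod.ext_iff.mp (Prod.ext_iff.mp e0).2).1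
      have e4 := (Prod.ext_iff.mp (Prod.ext_iff.mp e0).2).2
      have e5 := (Prod.ext_iff.mp e4).1
      have e6 := (Prod.ext_iff.mp e4).2
      refine Prod.ext e2 (Prod.ext (Prod.ext e3 e1) (Prod.ext ?_ ?_))
      · change TQ.la _ X _ _ = TQ.la _ X _ _
        rw [tq5_la, tq5_la]
        exact e5
      · change TQ.wv _ X _ _ = TQ.wv _ X _ _
        rw [tq5_wv, tq5_wv]
        exact e6
    linarith

end Pool.P5
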