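import Pool.Agent.H21.P5.EndS5
import Pool.Agent.H21.P5.Enum5
import Pool.Agent.H21.P5.TqOk
import Pool.Agent.H21.P4.EndA

/-!
# P5, the last assembly: the exact line, the near points, the record
-/

set_option autoImplicit false

namespace Pool.P5

open Finset Real MvPolynomial Matrix
open Pool.Agent.H49.Ent Pool.Agent.H32.Dense Pool.STK Pool.STAT Pool.MIC.Frm Pool.MIC7 Pool.FRM
open Pool.GSD
open Pool.BFL (Pb)
open Pool.POT (VCh)
open Pool.P4 (t0 rt pp bb ze zt z0 be cl1 dg dgp Ry cb LLC tq GoodS FrP GnL NewLabT NFc Fx Dic LT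
  Lt NBT MF rcd cMx cM yF nF yD zh)
open Pool.TQ64 (TQ)

/-! ### The line knows the coarse line -/

theorem det_line5 {c k0 k1 : ℕ} (D : NDat2) (J w z i j r X : ℕ) (C : ℝ)
    (P : D.Γ × D.Γ → ℕ → PN) (S : Slo D) (ys : Fin (k0 + k1) → ℕ) (gs : Fin c → ℕ)
    (q : D.Ω → ℝ) (E : D.Ω → Prop) :
    Det q (Lt D J w i j r)
      (tq5 (c := c) (k0 := k0) (k1 := k1) D J w z i j r X C P S ys gs q E).line := by
  intro ω ω' _ _ h
  unfold Lt NDat2.wn at h
  simp only [Prod.mk.injEq] at h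
  obtain ⟨h1, h2, h3⟩ := h
  have ht : t0 D J w ω = t0 D J w ω' := by
    unfold t0
    rw [h3]
  have hz : ∀ t l, zt D i j r P t ω l = zt D i j r P t ω' l := by
    intro t l
    unfold zt
    rw [h1, h2]
  have h0 : z0 D J w i j r P ω = z0 D J w i j r P ω' := by
    funext l
    unfold z0
    rw [ht, hz]
  have hb : be D J w i j r P ω = be D J w i j r P ω' := by
    funext l
    unfold be
    rw [ht, hz, h0]
  have hb2 : b2 D J w i j r P ω = b2 D J w i j r P ω' := by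
    funext l
    unfold b2
    rw [ht, hz, hz, h0]
  have hb1 : b1 D J w i j r P ω = b1 D J w i j r P ω' := by
    funext l
    unfold b1
    rw [hb, hb2]
  have hcb : cb D J w i j r ω = cb D J w i j r ω' := by
    unfold cb
    rw [h1, h3]
  have hv : vv D J w z i j r X C P ys gs ω = vv D J w z i j r X C P ys gs ω' := by
    unfold vv yv mv bev be2v
    rw [hcb, h0, hb1, hb2]
  have hn : nuv D J w z i j r X C P gs ω = nuv D J w z i j r X C P gs ω' := by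
    unfold nuv
    rw [h0]
  change (nuv D J w z i j r X C P gs ω, (vv D J w z i j r X C P ys gs ω, cb D J w i j r ω)) =
    (nuv D J w z i j r X C P gs ω', (vv D J w z i j r X C P ys gs ω', cb D J w i j r ω'))
  rw [hn, hv, hcb]

/-! ### The near points -/

/-- The near points. -/
abbrev NPt5 (D : NDat2) (c k : ℕ) : Type :=
  (Prop × (ℕ × (D.S × (D.S × D.S)))) × ((Fin k → ℤ) × (Fin c → ℤ))

/-- The near point of a sample. -/
noncomputable def nP5 (D : NDat2) (J w z i j r a X : ℕ) (C : ℝ) (E : D.Ω → Prop)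
    (P : D.Γ × D.Γ → ℕ → PN) (S : Slo D) {c k0 k1 : ℕ} (ys : Fin (k0 + k1) → ℕ)
    (gs : Fin c → ℕ) (q : D.Ω → ℝ) (ω : D.Ω) : NPt5 D c (k0 + k1) :=
  ((E ω, rcd D i j r a ω), (yF E (yD z X C (zh D i j r a E P) ys) ω,
    nF E (nuD z X C (zh D i j r a E P) gs)
      (qh (c := c) (k0 := k0) (k1 := k1) D J w z i j r X C P S ys gs q).hgt ω))

/-- On the event, it is a function of the exact point. -/
theorem nP5_eq {D : NDat2} {n K J a₀ w₀ z M w i j r a X : ℕ} {lam gam : ℕ → ℝ} {κ C₁ C : ℝ}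
    {q : D.Ω → ℝ} (hO : D.Ok2 n K J a₀ w₀ z M lam gam κ C₁ q) (hi : i ≤ M) (hj : j ≤ M)
    {E : D.Ω → Prop} (hE : ∀ ω, E ω → 0 < q ω) (P : D.Γ × D.Γ → ℕ → PN)
    (S : Slo D) {c k0 k1 : ℕ} (ys : Fin (k0 + k1) → ℕ) (gs : Fin c → ℕ) {ω ω' : D.Ω} (hω : E ω)
    (hω' : E ω') (h : D.pt ω = D.pt ω') :
    (D.pt ω, nP5 D J w z i j r a X C E P S ys gs q ω) =
      (D.pt ω', nP5 D J w z i j r a X C E P S ys gs q ω') := by
  have h1 := Pool.P4.rcd_pt hO hi hj r a ω ω' (hE ω hω) (hE ω' hω') h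
  have h2 := Pool.P4.hat_eq hω h
  have h3 : zh D i j r a E P ω = zh D i j r a E P ω' := by
    funext l
    unfold zh
    rw [h2]
  have h4 : E ω = E ω' := propext ⟨fun _ => hω', fun _ => hω⟩
  unfold nP5 yF nF yD nuD
  rw [if_pos hω, if_pos hω', if_pos hω, if_pos hω', h, h1, h3, h4]

/-! ### The record -/

/-- The visible chart of the record. -/
theorem vch_tq5 {c k0 k1 : ℕ} {D : NDat2} {J w z i j r X : ℕ} {C : ℝ}
    {P : D.Γ × D.Γ → ℕ → PN} {S : Slo D} {ys : Fin (k0 + k1) → ℕ} {gs : Fin c → ℕ}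
    {q : D.Ω → ℝ} {E : D.Ω → Prop} {B : ℕ} {n₀ : Fin c} {c0 d δ Γ : ℝ} {σ υ : Type}
    {s : D.Ω → σ} {y : D.Ω → υ} {n : D.Ω → Fin c → ℤ} {M : D.Ω → Matrix (Fin c) (Fin c) ℝ}
    (h : VCh ((qh (c := c) (k0 := k0) (k1 := k1) D J w z i j r X C P S ys gs q).flag E) X B n₀
      c0 d δ Γ s y n M) :
    VCh (tq5 (c := c) (k0 := k0) (k1 := k1) D J w z i j r X C P S ys gs q E).h0 X B n₀
      c0 d δ Γ s y n M where
  ds := h.ds
  dM := h.dM
  one := h.one
  low := h.low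
  ent := h.ent
  inv := h.inv
  e1 := h.e1
  e2 := h.e2
  hF := h.hF
  rel := h.rel
  tr := h.tr
  nf := h.nf

/-- Two times of the record. -/
theorem tm_tq5 {c k0 k1 : ℕ} {D : NDat2} {J w z i j r X : ℕ} {C : ℝ}
    {P : D.Γ × D.Γ → ℕ → PN} {S : Slo D} {ys : Fin (k0 + k1) → ℕ} {gs : Fin c → ℕ}
    {q : D.Ω → ℝ} (hq : ∀ ω, 0 ≤ q ω) {E : D.Ω → Prop} {s s' η : ℝ} (hs : s' ≤ s)
    (h : (qh (c := c) (k0 := k0) (k1 := k1) D J w z i j r X C P S ys gs q).TM X s η) :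
    (tq5 (c := c) (k0 := k0) (k1 := k1) D J w z i j r X C P S ys gs q E).TM X s' η := by
  have h1 : (tq5 (c := c) (k0 := k0) (k1 := k1) D J w z i j r X C P S ys gs q E).TM X s η := h
  refine le_trans (Pool.POT.pb_mono (fun w => Pool.SLO.tup_nonneg hq _ 1 w) fun w _ hw => ?_) h1
  exact le_trans hw (mul_le_mul_of_nonneg_right hs (by positivity))

end Pool.P5
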