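import Pool.Agent.H21.PT2.Potv
import Pool.Agent.H64.P5.Def

/-!
# P5: the conserved body which contains both families of three-point vectors

`vch_okh`: the line system of a picture with a visible chart. `pot5`: for a record `TQ` with a
visible chart and with the two bodies of 64 there is one conserved body which contains the
three-point vectors of the slopes of the moving coordinates (times) and those of the interpolated
slopes of the static coordinates (squared times).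
-/

set_option autoImplicit false

namespace Pool.POT

open Finset Real Matrix
open Pool.Agent.H49.Ent Pool.Agent.H32.Dense Pool.STK Pool.FAD
open Pool.SLO (tup tup_nonneg tup_isLaw)
open Pool.KS6 (ind ind_nonneg)
open Pool.QC (nfb)
open Pool.QT64 (QH d3)
open Pool.BFL (Pb)

variable {c k : ℕ} {σ υ : Type}

/-- The line system of a picture with a visible chart, from the hypotheses which are used. -/
theorem vch_okh {H : QH c k} {X B : ℕ} {n₀ : Fin c} {c0 d δ Γ : ℝ} {s : H.Ω → σ} {y : H.Ω → υ}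
    {n : H.Ω → Fin c → ℤ} {M : H.Ω → Matrix (Fin c) (Fin c) ℝ} (hlaw : IsLaw H.p)
    (hh0 : CH H.p H.th H.b - CH H.p H.th H.line ≤ d)
    (hh2 : CH H.p H.hgt (fun ω => (H.th ω, H.b ω)) -
      CH H.p H.hgt (fun ω => (H.v ω, (H.th ω, H.b ω))) ≤ d)
    (h : VCh H X B n₀ c0 d δ Γ s y n M) (hΓ : 1 ≤ Γ) :
    (lnOf H s y n M).Ok (2 * d + Ch2 c Γ) δ d Γ (2 * Γ) := by
  have hp := hlaw.nonneg
  have hd : 0 ≤ d := (CH_nonneg hp _ _).trans h.e1
  have hC := Ch2_nonneg c (show 0 ≤ Γ by linarith)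
  have dLb : Det H.p H.line H.b := by
    intro ω ω' _ _ e
    unfold QH.line at e
    simp only [Prod.mk.injEq] at e
    exact e.2.2
  have dLv : Det H.p H.line H.v := by
    intro ω ω' _ _ e
    unfold QH.line at e
    simp only [Prod.mk.injEq] at e
    exact e.2.1
  have dM' : Det H.p (fun ω => (H.b ω, H.th ω)) M := by
    intro ω ω' x x' e
    have h1 := h.ds ω ω' x x' e
    simp only [Prod.mk.injEq] at e
    exact h.dM ω ω' x x' (Prod.ext e.1 h1)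
  refine
    { law := hlaw
      dLb := dLb
      dLv := dLv
      ds := h.ds
      dM := h.dM
      h0 := ?_
      h2 := ?_
      hF := ?_
      e1 := h.e1
      e2 := h.e2
      det := fun ω => det_low (h.one ω) (h.low ω)
      ent := h.ent
      inv := h.inv
      tr := ?_ }
  · have h1 := hh0
    have h2 : CH H.p H.th (fun ω => (H.line ω, H.b ω)) = CH H.p H.th H.line := by
      refine CH_congr hp (fun _ _ _ _ e => (Prod.ext_iff.mp e).1)
        (fun _ _ _ _ e => (Prod.ext_iff.mp e).1) (fun _ _ _ _ e => (Prod.ext_iff.mp e).1) ?_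
      intro ω ω' x x' e
      exact Prod.ext e (dLb ω ω' x x' e)
    change CH H.p H.th H.b - CH H.p H.th (fun ω => (H.line ω, H.b ω)) ≤ _
    linarith
  · change MI H.p n H.v (fun ω => (y ω, (H.b ω, H.th ω))) ≤ _
    -- from the height
    have g1 : MI H.p H.hgt H.v (fun ω => (H.th ω, H.b ω)) ≤ d := hh2
    have g2 : MI H.p H.hgt H.v (fun ω => (y ω, (H.b ω, H.th ω))) ≤ 2 * d := by
      have k1 : MI H.p H.hgt H.v (fun ω => (y ω, (H.b ω, H.th ω))) =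
          MI H.p H.hgt H.v (fun ω => (y ω, (H.th ω, H.b ω))) := by
        refine MI_congr hp ?_ ?_ ?_ ?_ ?_ ?_ <;>
        · intro ω ω' _ _ e
          simp only [Prod.mk.injEq] at e ⊢
          tauto
      have k2 := MI_chain hp H.hgt H.v y (fun ω => (H.th ω, H.b ω))
      have k3 := MI_chain hp H.hgt y H.v (fun ω => (H.th ω, H.b ω))
      have k4 : MI H.p H.hgt (fun ω => (H.v ω, y ω)) (fun ω => (H.th ω, H.b ω)) =
          MI H.p H.hgt (fun ω => (y ω, H.v ω)) (fun ω => (H.th ω, H.b ω)) := by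
        refine MI_congr hp ?_ ?_ ?_ ?_ ?_ ?_ <;>
        · intro ω ω' _ _ e
          simp only [Prod.mk.injEq] at e ⊢
          tauto
      have k5 := MI_nonneg hp H.hgt y (fun ω => (H.th ω, H.b ω))
      have k6 : MI H.p H.hgt y (fun ω => (H.v ω, (H.th ω, H.b ω))) ≤ d := by
        rw [MI_symm hp]
        refine (MI_le_CH hp _ _ _).trans (le_trans (CH_mono_cond hp ?_) h.e2)
        intro ω ω' _ _ e
        simp only [Prod.mk.injEq] at e ⊢
        tauto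
      linarith
    have g3 : CH H.p n (fun ω => (y ω, (H.b ω, H.th ω))) ≤
        CH H.p H.hgt (fun ω => (y ω, (H.b ω, H.th ω))) +
          c * Real.log (2 * (c * (Γ * Γ)) + 1) := by
      have k1 := CH_le_add hp n H.hgt (fun ω => (y ω, (H.b ω, H.th ω)))
      have k2 := CH_le_vec hp hlaw.sum_one n
        (fun ω => (H.hgt ω, (y ω, (H.b ω, H.th ω)))) (fun _ => c * (Γ * Γ)) (by
          intro ω ω' x x' e i
          simp only [Prod.mk.injEq] at e
          have k3 : ∀ i, |((M ω)⁻¹ *ᵥ dv (n ω) (n ω')) i| ≤ Γ := by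
            intro i
            have := h.rel ω ω' x x' e.2.1 e.2.2.1 e.2.2.2 i
            have k4 : dv (H.hgt ω) (H.hgt ω') i = 0 := by
              unfold dv
              rw [e.1]
              simp
            rw [k4, sub_zero] at this
            exact this
          have k5 : dv (n ω) (n ω') = M ω *ᵥ ((M ω)⁻¹ *ᵥ dv (n ω) (n ω')) := by
            rw [Matrix.mulVec_mulVec, Matrix.mul_nonsing_inv _ (by
              rw [det_low (h.one ω) (h.low ω)]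
              exact isUnit_one), Matrix.one_mulVec]
          have k6 := mulVec_bd (h.ent ω) k3 (by linarith) i
          rw [← k5] at k6
          exact k6)
      rw [Ex_const hlaw.sum_one] at k2
      linarith
    have g4 : CH H.p H.hgt (fun ω => (H.v ω, (y ω, (H.b ω, H.th ω)))) ≤
        CH H.p n (fun ω => (H.v ω, (y ω, (H.b ω, H.th ω)))) + c * Real.log (2 * Γ + 1) := by
      have k1 := CH_le_add hp H.hgt n (fun ω => (H.v ω, (y ω, (H.b ω, H.th ω))))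
      have k2 := CH_le_vec hp hlaw.sum_one H.hgt
        (fun ω => (n ω, (H.v ω, (y ω, (H.b ω, H.th ω))))) (fun _ => Γ) (by
          intro ω ω' x x' e i
          simp only [Prod.mk.injEq] at e
          have := h.rel ω ω' x x' e.2.2.1 e.2.2.2.1 e.2.2.2.2 i
          have k4 : dv (n ω) (n ω') = 0 := by
            funext j
            unfold dv
            rw [e.1]
            simp
          rw [k4, Matrix.mulVec_zero, Pi.zero_apply, zero_sub, abs_neg] at this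
          exact this)
      rw [Ex_const hlaw.sum_one] at k2
      linarith
    unfold MI at g2 ⊢
    unfold Ch2
    linarith
  · change CH H.p (fun ω => (y ω, n ω)) s -
      CH H.p (fun ω => (y ω, n ω)) (fun ω => (H.b ω, s ω)) ≤ δ
    have := h.hF
    linarith
  · intro ω0 ω1 ω0' ω1' x0 x1 x0' x1' e1 e2 e3 i
    change |((M ω0)⁻¹ *ᵥ dv (n ω0) (n ω0')) i - ((M ω1)⁻¹ *ᵥ dv (n ω1) (n ω1')) i| ≤ 2 * Γ
    have e1' : H.line ω1 = H.line ω0 := e1
    have e2' : H.line ω1' = H.line ω0' := e2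
    have e3' : (H.v ω0, (H.b ω0, (H.th ω0, H.th ω1))) =
      (H.v ω0', (H.b ω0', (H.th ω0', H.th ω1'))) := e3
    simp only [Prod.mk.injEq] at e3'
    have b1 := dLb ω1 ω0 x1 x0 e1'
    have b2 := dLb ω1' ω0' x1' x0' e2'
    have v1 := dLv ω1 ω0 x1 x0 e1'
    have v2 := dLv ω1' ω0' x1' x0' e2'
    have k1 := h.tr ω0 ω0' x0 x0' e3'.1 e3'.2.1 e3'.2.2.1 i
    have k2 := h.tr ω1 ω1' x1 x1' (by rw [v1, v2]; exact e3'.1) (by rw [b1, b2]; exact e3'.2.1)
      e3'.2.2.2 i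
    have n1 : H.nu ω1 = H.nu ω0 := (Prod.ext_iff.mp e1').1
    have n2 : H.nu ω1' = H.nu ω0' := (Prod.ext_iff.mp e2').1
    rw [n1, n2] at k2
    rw [abs_le] at k1 k2 ⊢
    constructor <;> linarith [k1.1, k1.2, k2.1, k2.2]


end Pool.POT

namespace Pool.TQ64

open Finset Real Matrix
open Pool.Agent.H49.Ent Pool.Agent.H32.Dense Pool.STK Pool.KS6 Pool.SLO Pool.QT64 Pool.FAD Pool.POT
open Pool.BFL (Pb)
open Pool.LBL (Ad)

variable {c k0 k1 : ℕ}

/-- The record as a picture without slow coordinates: for the visible chart. -/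
def TQ.h0 (Q : TQ c k0 k1) : QH c 0 where
  Ω := Q.Ω
  iΩ := Q.iΩ
  B := Q.B
  Vt := Q.Vt
  Tt := Q.Tt
  p := Q.p
  b := Q.b
  nu := Q.nu
  v := Q.v
  th := Q.th
  tau := Q.tm
  E := fun _ u => u.elim0
  y := fun _ u => u.elim0
  be := fun _ _ => 0
  g := Q.g
  a0 := fun _ _ => 0
  b0 := fun _ _ => 0

theorem h0_hgt (Q : TQ c k0 k1) : Q.h0.hgt = Q.hgt := rfl

set_option maxHeartbeats 4000000 in
/-- **The conserved body of the record.** -/
theorem pot5 (c k0 k1 : ℕ) (n₀ : Fin c) (hn₀ : ∀ i, i ≤ n₀) (c0 x1 zz η : ℝ) (B : ℕ)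
    (hx1 : 0 ≤ x1) (hzz : 0 < zz) (hη : 0 < η) (hB : 0 < B) :
    ∃ io : ℝ, 0 < io ∧ ∀ r1 r2 : ℕ, ∃ X0 : ℕ, ∀ (Q : TQ c k0 k1) (X : ℕ) (s0 : ℝ), X0 ≤ X →
    IsLaw Q.p → CH Q.p Q.th Q.b - CH Q.p Q.th Q.line ≤ io * X →
    CH Q.p Q.hgt (fun ω => (Q.th ω, Q.b ω)) -
      CH Q.p Q.hgt (fun ω => (Q.v ω, (Q.th ω, Q.b ω))) ≤ io * X →
    (∀ ω u i, |Q.cc (Q.th ω) u i| ≤ 2 ^ r1) →
    (∀ ω ω' ω'' u i, |Q.at2 X s0 (Q.th ω) (Q.th ω') (Q.th ω'') u i| ≤ 2 ^ r2) →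
    DF (tup Q.p Q.line 3) (fun _ => Tx c X)
      (fun w => bX r1 X Q.tm Q.cc (Q.th (w 1)) (Q.th (w 2)) (Q.th (w 3)))
      (fun w => xv X (Q.hgt (w 0)))
      (fun w => (Q.b (w 0), (Q.th (w 0), fun j : Fin 3 => Q.th (w j.succ)))) ≤ io * X →
    DF (tup Q.p Q.line 5) (fun _ => Tx c X)
      (fun w => bX r2 X (fun t => tsq X (Q.tm t) (Q.tm (Q.th (w 4))))
        (fun t => Q.at2 X s0 t (Q.th (w 4)) (Q.th (w 5))) (Q.th (w 1)) (Q.th (w 2)) (Q.th (w 3)))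
      (fun w => xv X (Q.hgt (w 0)))
      (fun w => (Q.b (w 0), (Q.th (w 0), fun j : Fin 5 => Q.th (w j.succ)))) ≤ io * X →
    ∀ {σ υ : Type} (s : Q.Ω → σ) (y : Q.Ω → υ) (n : Q.Ω → Fin c → ℤ)
      (M : Q.Ω → Matrix (Fin c) (Fin c) ℝ),
    VCh Q.h0 X B n₀ c0 (io * X) (io * X) (2 ^ (io * X)) s y n M →
    ∃ A : σ × (υ × (Fin c → ℤ)) → Matrix (Fin c) (Fin c) ℝ,
      (∀ P, (A P).det ≠ 0 ∧ (∀ i j, |A P i j| ≤ 2 ^ (zz * X)) ∧
        ∀ i j, |(A P)⁻¹ i j| ≤ 2 ^ X) ∧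
      c0 - x1 - η ≤ Pb Q.p (fun ω => ∃ m, Ad (A (s ω, (y ω, n ω))) n₀
        ((2 : ℝ) ^ ((X : ℝ) / B)) (2 ^ (-((x1 - zz) * X))) m) ∧
      Pb (tup Q.p Q.line 1) (fun w => ¬ ∀ i j,
        |((A (s (w 0), (y (w 0), n (w 0))))⁻¹ *
          (M (w 0) * (M (w 1))⁻¹ * A (s (w 1), (y (w 1), n (w 1))))) i j| ≤ 2 ^ (zz * X)) ≤ η ∧
      Pb (tup Q.p Q.line 3) (fun w => ¬ ∀ u b,
        |((A (s (w 0), (y (w 0), n (w 0))))⁻¹ *ᵥ (M (w 0) *ᵥ d3 Q.tm Q.cc u (Q.th (w 1))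
          (Q.th (w 2)) (Q.th (w 3)))) b| ≤ 2 ^ (zz * X)) ≤ η ∧
      Pb (tup Q.p Q.line 5) (fun w => ¬ ∀ u b,
        |((A (s (w 0), (y (w 0), n (w 0))))⁻¹ *ᵥ (M (w 0) *ᵥ
          d3 (fun t => tsq X (Q.tm t) (Q.tm (Q.th (w 4))))
            (fun t => Q.at2 X s0 t (Q.th (w 4)) (Q.th (w 5))) u (Q.th (w 1))
            (Q.th (w 2)) (Q.th (w 3)))) b| ≤ 2 ^ (zz * X)) ≤ η := by
  have hc : 0 < c := lt_of_le_of_lt (Nat.zero_le _) n₀.2
  have hc1 : (1 : ℝ) ≤ c := by exact_mod_cast hc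
  obtain ⟨io1, hio1, hpot⟩ := potv c n₀ hn₀ c0 x1 zz η B 4 hx1 hzz hη hB
  obtain ⟨io, hio⟩ : ∃ io, io = io1 / (2 * (8 + 8 * c)) := ⟨_, rfl⟩
  have hio0 : 0 < io := by rw [hio]; positivity
  have hio' : io * (2 * (8 + 8 * c)) = io1 := by
    rw [hio]
    field_simp
  refine ⟨io, hio0, fun r1 r2 => ?_⟩
  obtain ⟨X1, hpot⟩ := hpot (max (KX c r1) (KX c r2)) ((KX_one c r1).trans (le_max_left _ _))
  obtain ⟨X2, h2⟩ := ex_ge (a := io1 / 2) (b := 4 * c * (Real.log c + 3)) (by positivity)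
  refine ⟨max X1 X2, ?_⟩
  intro Q X s0 hX hlaw hh0 hh2 hcc hat hD1 hD2 σ υ s y n M hV
  have hX1 : X1 ≤ X := (le_max_left _ _).trans hX
  have h2 := h2 X ((le_max_right _ _).trans hX)
  have hX0 : (0 : ℝ) ≤ X := Nat.cast_nonneg X
  have hioX : 0 ≤ io * X := mul_nonneg hio0.le hX0
  have hle : io * X ≤ io1 * X := mul_le_mul_of_nonneg_right (by nlinarith) hX0
  have hΓ : (1 : ℝ) ≤ 2 ^ (io * X) := Real.one_le_rpow (by norm_num) hioX
  have hΓle : (2 : ℝ) ^ (io * X) ≤ 2 ^ (io1 * X) :=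
    Real.rpow_le_rpow_of_exponent_le (by norm_num) hle
  have hel : el c (2 ^ (io * X)) ≤ Real.log c + 3 + io * X := by
    have hl1 : Real.log 2 ≤ 1 := by
      have := Real.log_two_lt_d9
      linarith
    unfold el
    rw [Real.log_rpow (by norm_num)]
    nlinarith
  have hΓ2 : (2 : ℝ) ^ (io * X) ≤ 2 * 2 ^ (io1 * X) := by linarith
  have hok := vch_okh (H := Q.h0) hlaw hh0 hh2 hV hΓ
  have hprice : 2 * (io * X) + Ch2 c (2 ^ (io * X)) ≤ io1 * X := by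
    have k1 := Ch2_le (Γ := 2 ^ (io * X)) hc hΓ
    have k2 : (c : ℝ) * el c (2 ^ (io * X)) ≤ c * (Real.log c + 3 + io * X) :=
      mul_le_mul_of_nonneg_left hel (by linarith)
    have k4 : io * (2 * (8 + 8 * c)) * X = io1 * X := by rw [hio']
    nlinarith
  obtain ⟨A, hA, hcv, htr, hvec⟩ := hpot X hX1 (lnOf Q.h0 s y n M)
    (hok.okc.mono hprice hle hle hΓle (by linarith)) hV.nf
  have hdh : Det Q.p (fun ω => (Q.line ω, Q.th ω)) Q.hgt := by
    intro ω ω' _ _ e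
    unfold TQ.line at e
    simp only [Prod.mk.injEq] at e
    unfold TQ.hgt
    rw [e.1.1, e.1.2.1, e.2]
  have hMI : MI Q.p Q.hgt Q.v (fun ω => (Q.th ω, Q.b ω)) ≤ io1 * X := hh2.trans hle
  have hrel : ∀ ω ω', 0 < Q.p ω → 0 < Q.p ω' →
      (y ω, (Q.b ω, Q.th ω)) = (y ω', (Q.b ω', Q.th ω')) →
      ∀ i, |((M ω)⁻¹ *ᵥ dv (n ω) (n ω')) i - dv (Q.hgt ω) (Q.hgt ω') i| ≤
        2 * 2 ^ (io1 * X) := by
    intro ω ω' x x' e i
    simp only [Prod.mk.injEq] at e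
    have k1 := hV.rel ω ω' x x' e.1 e.2.1 e.2.2 i
    rw [h0_hgt] at k1
    exact le_trans k1 hΓ2
  refine ⟨A, hA, hcv, htr, ?_, ?_⟩
  · have := hvec 2 (by norm_num) (fun t => bX r1 X Q.tm Q.cc (t 0) (t 1) (t 2)) Q.hgt
      (V := Fin k1) (fun t u => d3 Q.tm Q.cc u (t 0) (t 1) (t 2))
      (fun w => ⟨bX_det r1 X Q.tm Q.cc _ _ _, fun i j => (bX_entry X Q.tm Q.cc (C := 2 ^ r1)
        le_rfl (hcc _) (hcc _) (hcc _) i j).trans (le_max_left _ _),
        fun i j => bX_inv r1 X Q.tm Q.cc _ _ _ i j⟩)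
      (fun w u b => (bX_d3 X Q.tm Q.cc (C := 2 ^ r1) le_rfl (hcc _) (hcc _) (hcc _) u b).trans
        (le_max_left _ _)) hdh hMI hrel (hD1.trans hle)
    exact this
  · have f1 : ∀ w : Fin (4 + 1) → Q.Ω, (bX r2 X (fun x => tsq X (Q.tm x) (Q.tm (Q.th (w 3))))
        (fun x => Q.at2 X s0 x (Q.th (w 3)) (Q.th (w 4))) (Q.th (w 0)) (Q.th (w 1))
        (Q.th (w 2))).det ≠ 0 := fun w => bX_det r2 X (fun x => tsq X (Q.tm x) (Q.tm (Q.th (w 3))))
        (fun x => Q.at2 X s0 x (Q.th (w 3)) (Q.th (w 4))) (Q.th (w 0)) (Q.th (w 1)) (Q.th (w 2))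
    have f2 : ∀ (w : Fin (4 + 1) → Q.Ω) (i j : Fin c),
        |bX r2 X (fun x => tsq X (Q.tm x) (Q.tm (Q.th (w 3))))
        (fun x => Q.at2 X s0 x (Q.th (w 3)) (Q.th (w 4))) (Q.th (w 0)) (Q.th (w 1))
        (Q.th (w 2)) i j| ≤ KX c r2 := fun w i j =>
      bX_entry X (fun x => tsq X (Q.tm x) (Q.tm (Q.th (w 3))))
        (fun x => Q.at2 X s0 x (Q.th (w 3)) (Q.th (w 4))) (C := 2 ^ r2) le_rfl
        (fun u i => hat (w 0) (w 3) (w 4) u i) (fun u i => hat (w 1) (w 3) (w 4) u i)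
        (fun u i => hat (w 2) (w 3) (w 4) u i) i j
    have f3 : ∀ (w : Fin (4 + 1) → Q.Ω) (i j : Fin c),
        |(bX r2 X (fun x => tsq X (Q.tm x) (Q.tm (Q.th (w 3))))
        (fun x => Q.at2 X s0 x (Q.th (w 3)) (Q.th (w 4))) (Q.th (w 0)) (Q.th (w 1))
        (Q.th (w 2)))⁻¹ i j| ≤ 2 ^ X := fun w i j =>
      bX_inv r2 X (fun x => tsq X (Q.tm x) (Q.tm (Q.th (w 3))))
        (fun x => Q.at2 X s0 x (Q.th (w 3)) (Q.th (w 4))) (Q.th (w 0)) (Q.th (w 1))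
        (Q.th (w 2)) i j
    have f4 : ∀ (w : Fin (4 + 1) → Q.Ω) (u : Fin k0) (b : Fin c),
        |((bX r2 X (fun x => tsq X (Q.tm x) (Q.tm (Q.th (w 3))))
        (fun x => Q.at2 X s0 x (Q.th (w 3)) (Q.th (w 4))) (Q.th (w 0)) (Q.th (w 1))
        (Q.th (w 2)))⁻¹ *ᵥ d3 (fun x => tsq X (Q.tm x) (Q.tm (Q.th (w 3))))
        (fun x => Q.at2 X s0 x (Q.th (w 3)) (Q.th (w 4))) u (Q.th (w 0)) (Q.th (w 1))
        (Q.th (w 2))) b| ≤ KX c r2 := fun w u b =>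
      bX_d3 X (fun x => tsq X (Q.tm x) (Q.tm (Q.th (w 3))))
        (fun x => Q.at2 X s0 x (Q.th (w 3)) (Q.th (w 4))) (C := 2 ^ r2) le_rfl
        (fun u i => hat (w 0) (w 3) (w 4) u i) (fun u i => hat (w 1) (w 3) (w 4) u i)
        (fun u i => hat (w 2) (w 3) (w 4) u i) u b
    have := hvec 4 (by norm_num) (fun t => bX r2 X (fun x => tsq X (Q.tm x) (Q.tm (t 3)))
        (fun x => Q.at2 X s0 x (t 3) (t 4)) (t 0) (t 1) (t 2)) Q.hgt
      (V := Fin k0) (fun t u => d3 (fun x => tsq X (Q.tm x) (Q.tm (t 3)))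
        (fun x => Q.at2 X s0 x (t 3) (t 4)) u (t 0) (t 1) (t 2))
      (fun w => ⟨f1 w, fun i j => (f2 w i j).trans (le_max_right _ _), f3 w⟩)
      (fun w u b => (f4 w u b).trans (le_max_right _ _)) hdh hMI hrel (hD2.trans hle)
    exact this

end Pool.TQ64
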